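import Pool.Agent.H66.FA.T

set_option autoImplicit false

namespace Pool.Agent.H7.FA

open Matrix
open Pool.Agent.H66.FA Pool.Agent.H63.Fins MeasureTheory Filter Topology

private theorem det_updateCol_expand {n : ℕ} (M : Matrix (Fin n) (Fin n) ℝ) (i : Fin n)
    (b : Fin n → ℝ) :
    (M.updateCol i b).det = ∑ σ : Equiv.Perm (Fin n), (Equiv.Perm.sign σ : ℤ) •
      ((∏ j ∈ Finset.univ.erase i, M (σ j) j) * b (σ i)) := by
  rw [Matrix.det_apply']
  apply Finset.sum_congr rfl
  intro σ _
  have h : ∏ j, (M.updateCol i b) (σ j) j = (∏ j ∈ Finset.univ.erase i, M (σ j) j) * b (σ i) := by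
    rw [← Finset.prod_erase_mul Finset.univ _ (Finset.mem_univ i)]
    congr 1
    · apply Finset.prod_congr rfl
      intro j hj
      rw [Matrix.updateCol_ne (Finset.ne_of_mem_erase hj)]
    · rw [Matrix.updateCol_self]
  rw [h, zsmul_eq_mul]

private theorem sum_updateCol {n : ℕ} (M M' : Matrix (Fin n) (Fin n) ℝ) :
    ∑ i, (M.updateCol i (fun k => M' k i)).det = (M.adjugate * M').trace := by
  rw [Matrix.trace]
  apply Finset.sum_congr rfl
  intro i _
  rw [Matrix.diag_apply, ← Matrix.cramer_apply, Matrix.cramer_eq_adjugate_mulVec]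
  simp [Matrix.mulVec, Matrix.mul_apply, dotProduct]

/-- JAC: the derivative of a determinant. -/
theorem pf_JAC : T_JAC := by
  intro n M M' t hM hdet
  have h1 : HasDerivAt (fun s => ∑ σ : Equiv.Perm (Fin n), ((Equiv.Perm.sign σ : ℤ) : ℝ) *
      ∏ i, M s (σ i) i) (∑ σ : Equiv.Perm (Fin n), ((Equiv.Perm.sign σ : ℤ) : ℝ) *
      ∑ i, (∏ j ∈ Finset.univ.erase i, M t (σ j) j) • M' (σ i) i) t := by
    apply HasDerivAt.fun_sum
    intro σ _
    apply HasDerivAt.const_mul
    have := HasDerivAt.fun_finsetProd (u := (Finset.univ : Finset (Fin n)))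
      (f := fun i s => M s (σ i) i) (f' := fun i => M' (σ i) i) (x := t)
      (fun i _ => hM (σ i) i)
    exact this
  have h2 : (fun s => (M s).det) = (fun s => ∑ σ : Equiv.Perm (Fin n),
      ((Equiv.Perm.sign σ : ℤ) : ℝ) * ∏ i, M s (σ i) i) := by
    funext s
    rw [Matrix.det_apply']
  have h3 : (M t).det * ((M t)⁻¹ * M').trace = ((M t).adjugate * M').trace := by
    rw [Matrix.inv_def, Matrix.smul_mul, Matrix.trace_smul, Ring.inverse_eq_inv', smul_eq_mul,
      ← mul_assoc, mul_inv_cancel₀ hdet, one_mul]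
  rw [h2, h3, ← sum_updateCol]
  convert h1 using 1
  simp only [det_updateCol_expand, zsmul_eq_mul, smul_eq_mul, Finset.mul_sum]
  rw [Finset.sum_comm]

end Pool.Agent.H7.FA
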