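import Pool.Agent.H66.FA.T

set_option autoImplicit false

namespace Pool.Agent.H7.FA

open Matrix
open Pool.Agent.H66.FA Pool.Agent.H63.Fins MeasureTheory Filter Topology

/-- SYM: the third derivative is symmetric. -/
theorem pf_SYM (_h2 : T_REG) : T_SYM := by
  intro n L hL y hy u v w
  have hmem : {y : V n | y ≠ 0} ∈ 𝓝 y := isOpen_ne.mem_nhds hy
  have hLy : ContDiffAt ℝ (⊤ : ℕ∞) L y := hL.smooth.contDiffAt hmem
  have hG : ContDiffAt ℝ (⊤ : ℕ∞) (fderiv ℝ L) y := hLy.fderiv_right (by norm_cast)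
  have hG' : ContDiffAt ℝ (⊤ : ℕ∞) (fderiv ℝ (fderiv ℝ L)) y := hG.fderiv_right (by norm_cast)
  have hd : DifferentiableAt ℝ (fderiv ℝ (fderiv ℝ L)) y := hG'.differentiableAt (by norm_num)
  have hf : ∀ a b c : V n, fderiv ℝ (fun z => d2 L z a b) y c =
      fderiv ℝ (fderiv ℝ (fderiv ℝ L)) y c a b := by
    intro a b c
    have h1 := hd.hasFDerivAt.clm_apply (hasFDerivAt_const a y)
    have h3 := h1.clm_apply (hasFDerivAt_const b y)
    have h4 : (fun z => d2 L z a b) = fun z => fderiv ℝ (fderiv ℝ L) z a b := rfl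
    rw [h4, h3.fderiv]
    simp
  rw [hf, hf]
  have hs : IsSymmSndFDerivAt ℝ (fderiv ℝ L) y := by
    apply hG.isSymmSndFDerivAt
    simp only [minSmoothness_of_isRCLikeNormedField]
    exact WithTop.coe_le_coe.2 (le_top : (2 : ℕ∞) ≤ ⊤)
  have := hs.eq w u
  rw [this]

end Pool.Agent.H7.FA
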