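import Pool.Agent.H66.FA.T

set_option autoImplicit false

namespace Pool.Agent.H7.FA

open Matrix
open Pool.Agent.H66.FA Pool.Agent.H63.Fins MeasureTheory Filter Topology

/-- DEC: growth along the orbits. -/
theorem pf_DEC (h2 : T_REG) : T_DEC := by
  intro m B E L hL hE hA v hv hv0 s t hst
  obtain ⟨-, -, -, -, -, -, hreg⟩ := h2 (m + 1) L hL
  have hne : ∀ r : ℝ, E r v ≠ 0 := by
    intro r h0
    have h1 : E (-r + r) v = E (-r) (E r v) := hE.add _ _ _
    rw [neg_add_cancel, hE.zero, h0, map_zero] at h1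
    exact hv h1
  have hder : ∀ r : ℝ, HasDerivAt (fun r => L (E r v)) (fderiv ℝ L (E r v) (B (E r v))) r := by
    intro r
    exact ((hreg _ (hne r)).1).comp_hasDerivAt r (hE.der r v)
  have hmono : StrictMono (fun r => L (E r v)) := by
    apply strictMono_of_deriv_pos
    intro r
    rw [(hder r).deriv]
    exact hA _ (hne r) (by rw [hE.e0]; exact hv0)
  exact hmono hst

end Pool.Agent.H7.FA
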